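import Mathlib

/-!
# Small integer solutions of systems of unit and addition equations

For every `x` in `ℤ ^ n` there is a `y` in `ℤ ^ n` with `|y i| ≤ 2 ^ (n - 1)` which satisfies all
equations `z i = 1` and `z i + z j = z k` satisfied by `x`.

Proof. If no `x i` is `1`, then `y = 0`. Otherwise identify all the variables with `x i = 1` with one
of them, `i₀`. The equations `z i + z j = z k` have a coefficient matrix `A` with rows
`e_i + e_j - e_k`. Each row is the sum of the rows `e_i` and `e_j - e_k`, and determinants of
matrices whose rows are of one of these two kinds are `0` or `± 1`. So, by multilinearity, all minors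
of `A` of size `r` are at most `2 ^ r` in absolute value. Take a minor of the largest possible size
`r` in the columns different from `i₀`, with the largest possible absolute value `D`. The other
`k = n - 1 - r` variables can be reduced modulo `D` to numbers of absolute value at most `D / 2`
(Cramer's rule gives vectors in the kernel of `A` with the entry `D` in one of these places and `0`
in the others of these places), and then Cramer's rule shows that the variables of the minor are
bounded by `2 ^ r / D + k D / 2`. For `D = 1` the second summand can be deleted.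
-/

set_option autoImplicit false

open Matrix Finset

namespace Pool.Agent.Results.MP_80f852_al.SmallSolutions

/-- Matrices with rows `e_a - e_b` (where `e_a = 0` if `a` is not the label of a column) have
determinant `0` or `± 1`. -/
theorem abs_det_le_one {X : Type*} [DecidableEq X] : ∀ {r : ℕ} (a b c : Fin r → X),
    Function.Injective c →
    |(Matrix.of fun i j => (if a i = c j then (1 : ℤ) else 0) - (if b i = c j then 1 else 0)).det| ≤ 1
  | 0, a, b, c, _ => by simp
  | r + 1, a, b, c, hc => by
    set N : Matrix (Fin (r + 1)) (Fin (r + 1)) ℤ :=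
      Matrix.of fun i j => (if a i = c j then (1 : ℤ) else 0) - (if b i = c j then 1 else 0) with hN
    by_cases h : ∀ i, a i ∈ Set.range c ∧ b i ∈ Set.range c
    · have hdet : N.det = 0 := by
        rw [← Matrix.exists_mulVec_eq_zero_iff]
        refine ⟨fun _ => 1, ?_, ?_⟩
        · intro h0
          have := congrFun h0 0
          simp at this
        · ext i
          obtain ⟨⟨p, hp⟩, ⟨q, hq⟩⟩ := h i
          simp only [Matrix.mulVec, dotProduct, mul_one, Pi.zero_apply, hN, Matrix.of_apply,
            Finset.sum_sub_distrib]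
          rw [← hp, ← hq]
          simp only [hc.eq_iff]
          simp
      rw [hdet]; simp
    · push Not at h
      obtain ⟨i, hi⟩ := h
      rw [Matrix.det_succ_row N i]
      have hrow : ∑ j, |N i j| ≤ 1 := by
        have key : ∀ (z : X), ∑ j, (if z = c j then (1 : ℤ) else 0) ≤ 1 := by
          intro z
          by_cases hz : ∃ p, c p = z
          · obtain ⟨p, rfl⟩ := hz
            simp [hc.eq_iff]
          · push Not at hz
            rw [Finset.sum_eq_zero]
            · norm_num
            · intro j _
              rw [if_neg (fun h => hz j h.symm)]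
        by_cases ha : a i ∈ Set.range c
        · have hb := hi ha
          refine le_trans (le_of_eq ?_) (key (a i))
          refine Finset.sum_congr rfl fun j _ => ?_
          have : b i ≠ c j := fun h => hb ⟨j, h.symm⟩
          simp only [hN, Matrix.of_apply, if_neg this, sub_zero]
          split_ifs <;> simp
        · refine le_trans (le_of_eq ?_) (key (b i))
          refine Finset.sum_congr rfl fun j _ => ?_
          have : a i ≠ c j := fun h => ha ⟨j, h.symm⟩
          simp only [hN, Matrix.of_apply, if_neg this, zero_sub, abs_neg]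
          split_ifs <;> simp
      refine (Finset.abs_sum_le_sum_abs _ _).trans (le_trans (Finset.sum_le_sum fun j _ => ?_) hrow)
      have hsub : |(N.submatrix i.succAbove j.succAbove).det| ≤ 1 := by
        have := abs_det_le_one (a ∘ i.succAbove) (b ∘ i.succAbove) (c ∘ j.succAbove)
          (hc.comp Fin.succAbove_right_injective)
        exact this
      rw [abs_mul, abs_mul, abs_pow, abs_neg, abs_one, one_pow, one_mul]
      exact mul_le_of_le_one_right (abs_nonneg _) hsub

/-- Matrices with rows `e_a + e_b - e_d` have determinant at most `2 ^ r` in absolute value. -/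
theorem abs_det_le {X : Type*} [DecidableEq X] {r : ℕ} (a b d c : Fin r → X)
    (hc : Function.Injective c) :
    |(Matrix.of fun i j => (if a i = c j then (1 : ℤ) else 0) + (if b i = c j then 1 else 0)
      - (if d i = c j then 1 else 0)).det| ≤ 2 ^ r := by
  set P : Fin r → Fin r → ℤ := fun i j => (if a i = c j then (1 : ℤ) else 0) with hP
  set Q : Fin r → Fin r → ℤ := fun i j => (if b i = c j then (1 : ℤ) else 0)
    - (if d i = c j then 1 else 0) with hQ
  have h1 : (Matrix.of fun i j => (if a i = c j then (1 : ℤ) else 0) + (if b i = c j then 1 else 0)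
      - (if d i = c j then 1 else 0)).det = ∑ s : Finset (Fin r),
        (Matrix.of (s.piecewise P Q)).det := by
    have h2 := (Matrix.detRowAlternating (R := ℤ) (n := Fin r)).toMultilinearMap.map_add_univ P Q
    refine Eq.trans ?_ h2
    show Matrix.det _ = Matrix.det _
    congr 1
    ext i j
    simp only [Matrix.of_apply, hP, hQ, Pi.add_apply]
    ring
  rw [h1]
  refine (Finset.abs_sum_le_sum_abs _ _).trans ?_
  have h3 : ∀ s : Finset (Fin r), |(Matrix.of (s.piecewise P Q)).det| ≤ 1 := by
    intro s
    have := abs_det_le_one (X := Option X) (fun i => if i ∈ s then some (a i) else some (b i))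
      (fun i => if i ∈ s then none else some (d i)) (fun j => some (c j))
      ((Option.some_injective X).comp hc)
    refine le_trans (le_of_eq ?_) this
    congr 2
    ext i j
    simp only [Matrix.of_apply, Finset.piecewise]
    split_ifs <;> simp_all
  refine (Finset.sum_le_sum fun s _ => h3 s).trans ?_
  simp

section kernel

variable {M J : Type*} [Fintype J] [DecidableEq J]

/-- If all minors of size `r + 1` vanish, then Cramer's rule gives a vector in the kernel. -/
theorem exists_kernel {r : ℕ} (A : Matrix M J ℤ) (f : Fin r → M) (g : Fin r → J)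
    (hr : ∀ (f' : Fin (r + 1) → M) (g' : Fin (r + 1) → J), (A.submatrix f' g').det = 0)
    (j : J) (hj : j ∉ Set.range g) :
    ∃ v : J → ℤ, A *ᵥ v = 0 ∧ v j = (A.submatrix f g).det ∧
      ∀ j', j' ∉ Set.range g → j' ≠ j → v j' = 0 := by
  classical
  set w : Fin (r + 1) → ℤ := fun q =>
    (-1) ^ (q : ℕ) * (A.submatrix f ((Fin.cons j g : Fin (r + 1) → J) ∘ q.succAbove)).det with hw
  refine ⟨fun j' => ∑ q, if (Fin.cons j g : Fin (r + 1) → J) q = j' then w q else 0, ?_, ?_, ?_⟩
  · ext m
    have h := hr (Fin.cons m f) (Fin.cons j g)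
    rw [Matrix.det_succ_row_zero] at h
    simp only [Matrix.mulVec, dotProduct, Pi.zero_apply]
    refine Eq.trans ?_ h
    simp only [Finset.mul_sum]
    rw [Finset.sum_comm]
    refine Finset.sum_congr rfl fun q _ => ?_
    simp only [mul_ite, mul_zero, Finset.sum_ite_eq, Finset.mem_univ, if_true]
    simp only [Matrix.submatrix_apply, Fin.cons_zero, hw]
    have : (A.submatrix (Fin.cons m f : Fin (r + 1) → M) (Fin.cons j g : Fin (r + 1) → J)).submatrix
        Fin.succ q.succAbove = A.submatrix f ((Fin.cons j g : Fin (r + 1) → J) ∘ q.succAbove) := by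
      ext s t
      simp [Matrix.submatrix_apply]
    rw [this]
    ring
  · show ∑ q, (if (Fin.cons j g : Fin (r + 1) → J) q = j then w q else 0) = _
    rw [Fin.sum_univ_succ]
    simp only [Fin.cons_zero, if_true, Fin.cons_succ]
    rw [Finset.sum_eq_zero, add_zero]
    · simp only [hw, Fin.val_zero, pow_zero, one_mul]
      congr 2
    · intro q _
      rw [if_neg (fun h => hj ⟨q, h⟩)]
  · intro j' hj' hne
    refine Finset.sum_eq_zero fun q _ => ?_
    refine Fin.cases ?_ (fun q => ?_) q
    · rw [if_neg]
      simpa using hne.symm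
    · rw [if_neg]
      simp only [Fin.cons_succ]
      exact fun h => hj' ⟨q, h⟩

end kernel

/-- Reduction modulo a positive integer. -/
theorem exists_small (x D : ℤ) (hD : 0 < D) : ∃ t : ℤ, 2 * |x - t * D| ≤ D := by
  refine ⟨(2 * x + D) / (2 * D), ?_⟩
  have h1 := Int.emod_add_mul_ediv (2 * x + D) (2 * D)
  have h2 := Int.emod_nonneg (2 * x + D) (show 2 * D ≠ 0 by omega)
  have h3 := Int.emod_lt_of_pos (2 * x + D) (show 0 < 2 * D by omega)
  have h4 : 2 * (x - (2 * x + D) / (2 * D) * D) = (2 * x + D) % (2 * D) - D := by
    linear_combination -h1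
  rw [show 2 * |x - (2 * x + D) / (2 * D) * D| = |2 * (x - (2 * x + D) / (2 * D) * D)| by
    rw [abs_mul]; norm_num, h4]
  rw [abs_le]
  constructor <;> linarith

/-- The final estimate. -/
theorem arith {k r : ℕ} {D Y : ℤ} (hD : 2 ≤ D) (hDr : D ≤ 2 ^ r)
    (hY : 2 * (D * Y) ≤ 2 * 2 ^ r + D * (k * D)) : Y ≤ 2 ^ (r + k) := by
  have hk : (k : ℤ) + 1 ≤ 2 ^ k := by
    have : k + 1 ≤ 2 ^ k := Nat.lt_two_pow_self
    exact_mod_cast this
  have hk0 : (0 : ℤ) ≤ k := by positivity
  have h2 : (0 : ℤ) < 2 ^ r := by positivity
  -- `2 * D * Y ≤ 2 * 2 ^ r + k * D ^ 2 ≤ D * 2 ^ r * (k + 1) `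
  have h3 : D * (k * D) ≤ D * (k * 2 ^ r) := by
    apply mul_le_mul_of_nonneg_left _ (by omega)
    exact mul_le_mul_of_nonneg_left hDr hk0
  have h4 : 2 * (2 : ℤ) ^ r ≤ D * 2 ^ r := mul_le_mul_of_nonneg_right hD h2.le
  have h5 : D * (2 * Y) ≤ D * (2 ^ r * (k + 1)) := by nlinarith
  have h6 : 2 * Y ≤ 2 ^ r * (k + 1) := le_of_mul_le_mul_left h5 (by omega)
  have h7 : (2 : ℤ) ^ r * (k + 1) ≤ 2 ^ (r + k) := by
    rw [pow_add]
    exact mul_le_mul_of_nonneg_left hk h2.le
  have h8 : (0 : ℤ) < 2 ^ (r + k) := by positivity
  by_cases hY0 : Y ≤ 0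
  · linarith
  · linarith

section main

variable {M J : Type*} [Fintype M] [Fintype J] [DecidableEq J]

/-- Small integer solutions of systems of linear equations `A y = b`, where all minors of size `r` of
the augmented matrix are at most `2 ^ r` in absolute value. -/
theorem exists_small_solution (A : Matrix M J ℤ) (b : M → ℤ)
    (hA : ∀ (r : ℕ) (f : Fin r → M) (g : Fin r → J), |(A.submatrix f g).det| ≤ 2 ^ r)
    (hb : ∀ (r : ℕ) (f : Fin r → M) (g : Fin r → J) (c : Fin r),
      |((A.submatrix f g).updateCol c (b ∘ f)).det| ≤ 2 ^ r)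
    (x : J → ℤ) (hx : A *ᵥ x = b) :
    ∃ y : J → ℤ, A *ᵥ y = b ∧ ∀ j, |y j| ≤ 2 ^ (Fintype.card J) := by
  classical
  -- the largest size of a nonvanishing minor
  let P : ℕ → Prop := fun r => ∃ (f : Fin r → M) (g : Fin r → J), (A.submatrix f g).det ≠ 0
  have hP0 : P 0 := ⟨Fin.elim0, Fin.elim0, by simp⟩
  have hPle : ∀ r, P r → r ≤ Fintype.card J := by
    rintro r ⟨f, g, hfg⟩
    by_contra hlt
    push Not at hlt
    have : ¬ Function.Injective g := fun h => by
      have := Fintype.card_le_of_injective g h
      simp at this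
      omega
    simp only [Function.Injective, not_forall] at this
    obtain ⟨i, j, hij, hne⟩ := this
    apply hfg
    apply Matrix.det_zero_of_column_eq hne
    intro k
    simp [Matrix.submatrix_apply, hij]
  set r := Nat.findGreatest P (Fintype.card J) with hrdef
  have hPr : P r := Nat.findGreatest_spec (Nat.zero_le _) hP0
  have hmax : ∀ (f' : Fin (r + 1) → M) (g' : Fin (r + 1) → J), (A.submatrix f' g').det = 0 := by
    intro f' g'
    by_contra hne
    have h1 : P (r + 1) := ⟨f', g', hne⟩
    exact Nat.findGreatest_is_greatest (Nat.lt_succ_self r) (hPle _ h1) h1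
  -- the largest minor
  obtain ⟨⟨f, g⟩, -, hfgmax⟩ := Finset.exists_max_image
    (Finset.univ : Finset ((Fin r → M) × (Fin r → J)))
    (fun p => |(A.submatrix p.1 p.2).det|) (by
      obtain ⟨f, g, -⟩ := hPr
      exact ⟨(f, g), Finset.mem_univ _⟩)
  have hfgmax' : ∀ (f' : Fin r → M) (g' : Fin r → J),
      |(A.submatrix f' g').det| ≤ |(A.submatrix f g).det| :=
    fun f' g' => hfgmax (f', g') (Finset.mem_univ _)
  have hne : (A.submatrix f g).det ≠ 0 := by
    obtain ⟨f₀, g₀, h₀⟩ := hPr
    have := hfgmax' f₀ g₀
    intro h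
    rw [h, abs_zero] at this
    exact h₀ (abs_nonpos_iff.1 this)
  set B := A.submatrix f g with hB
  set D := |B.det| with hDdef
  have hD : 0 < D := abs_pos.2 hne
  have hginj : Function.Injective g := by
    intro i j hij
    by_contra hne'
    exact hne (Matrix.det_zero_of_column_eq hne' fun k => by simp [hB, Matrix.submatrix_apply, hij])
  -- kernel vectors
  have hker : ∀ j, ∃ v : J → ℤ, A *ᵥ v = 0 ∧ (j ∉ Set.range g → v j = D) ∧
      ∀ j', j' ∉ Set.range g → j' ≠ j → v j' = 0 := by
    intro j
    by_cases hj : j ∈ Set.range g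
    · exact ⟨0, by simp, fun h => absurd hj h, fun _ _ _ => rfl⟩
    · obtain ⟨v, hv1, hv2, hv3⟩ := exists_kernel A f g hmax j hj
      rcases abs_choice B.det with h | h
      · exact ⟨v, hv1, fun _ => by rw [hv2, hDdef, h], hv3⟩
      · refine ⟨-v, by rw [Matrix.mulVec_neg, hv1, neg_zero], fun _ => by
          rw [Pi.neg_apply, hv2, hDdef, h], fun j' h1 h2 => by rw [Pi.neg_apply, hv3 j' h1 h2, neg_zero]⟩
  choose v hv1 hv2 hv3 using hker
  choose t ht using fun j => exists_small (x j) D hD
  set S : Finset J := Finset.univ.filter fun j => j ∉ Set.range g with hS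
  set y : J → ℤ := x - ∑ j ∈ S, t j • v j with hy
  have hAy : A *ᵥ y = b := by
    rw [hy, Matrix.mulVec_sub, hx, Matrix.mulVec_sum]
    rw [Finset.sum_eq_zero, sub_zero]
    intro j _
    rw [Matrix.mulVec_smul, hv1, smul_zero]
  have hyS : ∀ j ∈ S, y j = x j - t j * D := by
    intro j hj
    have hj' : j ∉ Set.range g := (Finset.mem_filter.1 hj).2
    rw [hy, Pi.sub_apply, Finset.sum_apply, Finset.sum_eq_single j]
    · rw [Pi.smul_apply, hv2 j hj', smul_eq_mul]
    · intro j' _ hne'
      rw [Pi.smul_apply, hv3 j' j hj' hne'.symm, smul_zero]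
    · exact fun h => absurd hj h
  have hy2 : ∀ j ∈ S, 2 * |y j| ≤ D := fun j hj => by rw [hyS j hj]; exact ht j
  have hcard : S.card + r = Fintype.card J := by
    have h1 : (Finset.univ.filter fun j => j ∈ Set.range g).card = r := by
      have : (Finset.univ.filter fun j => j ∈ Set.range g) = Finset.univ.image g := by
        ext j; simp
      rw [this, Finset.card_image_of_injective _ hginj, Finset.card_univ, Fintype.card_fin]
    have h2 := Finset.card_filter_add_card_filter_not (s := (Finset.univ : Finset J))
      (fun j => j ∈ Set.range g)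
    rw [h1, Finset.card_univ] at h2
    rw [hS]
    omega
  have hDr : D ≤ 2 ^ r := hA r f g
  refine ⟨y, hAy, fun j => ?_⟩
  rw [← hcard]
  have hpow : (2 : ℤ) ^ r ≤ 2 ^ (S.card + r) := pow_le_pow_right₀ (by norm_num) (by omega)
  by_cases hj : j ∈ Set.range g
  · obtain ⟨c, rfl⟩ := hj
    -- Cramer's rule
    have hcr : D * |y (g c)| ≤ 2 ^ r + ∑ j ∈ S, |y j| * D := by
      have h1 : B *ᵥ (y ∘ g) = b ∘ f - ∑ j ∈ S, y j • (fun i => A (f i) j) := by
        ext i
        have h2 := congrFun hAy (f i)
        simp only [Matrix.mulVec, dotProduct] at h2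
        rw [← Finset.sum_filter_add_sum_filter_not Finset.univ (fun j => j ∈ Set.range g)] at h2
        have h3 : ∑ j ∈ Finset.univ.filter (fun j => j ∈ Set.range g), A (f i) j * y j =
            ∑ q, A (f i) (g q) * y (g q) := by
          have : (Finset.univ.filter fun j => j ∈ Set.range g) = Finset.univ.image g := by
            ext j; simp
          rw [this, Finset.sum_image fun a _ b _ h => hginj h]
        rw [h3] at h2
        simp only [Matrix.mulVec, dotProduct, Pi.sub_apply, Finset.sum_apply, Pi.smul_apply,
          smul_eq_mul, Function.comp, hB, Matrix.submatrix_apply]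
        rw [← h2]
        have h4 : ∑ j ∈ S, y j * A (f i) j = ∑ j ∈ Finset.univ.filter (fun j => ¬ j ∈ Set.range g),
            A (f i) j * y j := Finset.sum_congr rfl fun _ _ => mul_comm _ _
        rw [h4]
        ring
      have h5 : B.det * y (g c) = (B.updateCol c (b ∘ f)).det -
          ∑ j ∈ S, y j * (B.updateCol c (fun i => A (f i) j)).det := by
        have h6 : Matrix.cramer B (B *ᵥ (y ∘ g)) = B.det • (y ∘ g) := by
          rw [Matrix.cramer_eq_adjugate_mulVec, Matrix.mulVec_mulVec, Matrix.adjugate_mul,
            Matrix.smul_mulVec, Matrix.one_mulVec]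
        have h7 := congrFun h6 c
        rw [h1, map_sub, map_sum] at h7
        simp only [Pi.sub_apply, Finset.sum_apply, map_smul, Pi.smul_apply, smul_eq_mul,
          Matrix.cramer_apply, Function.comp] at h7
        rw [← h7]
      have h8 : D * |y (g c)| = |B.det * y (g c)| := by rw [abs_mul]
      rw [h8, h5]
      refine (abs_sub _ _).trans ?_
      refine add_le_add (hb r f g c) ?_
      refine (Finset.abs_sum_le_sum_abs _ _).trans (Finset.sum_le_sum fun j _ => ?_)
      rw [abs_mul]
      refine mul_le_mul_of_nonneg_left ?_ (abs_nonneg _)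
      have h9 : B.updateCol c (fun i => A (f i) j) = A.submatrix f (Function.update g c j) := by
        ext p q
        by_cases hq : q = c
        · subst hq; simp
        · simp [Matrix.updateCol_ne hq, hB, Function.update_of_ne hq]
      rw [h9]
      exact hfgmax' _ _
    rcases (show D = 1 ∨ 2 ≤ D by omega) with h1 | h1
    · have h10 : ∑ j ∈ S, |y j| * D = 0 := by
        refine Finset.sum_eq_zero fun j hj => ?_
        have := hy2 j hj
        have h0 := abs_nonneg (y j)
        have : |y j| = 0 := by omega
        rw [this, zero_mul]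
      rw [h10, h1] at hcr
      linarith
    · have h10 : 2 * ∑ j ∈ S, |y j| * D ≤ D * (S.card * D) := by
        rw [Finset.mul_sum]
        refine (Finset.sum_le_sum (g := fun _ => D * D) fun j hj => ?_).trans ?_
        · have := mul_le_mul_of_nonneg_right (hy2 j hj) hD.le
          linarith
        · rw [Finset.sum_const, nsmul_eq_mul]
          linarith
      rw [add_comm S.card r]
      exact arith h1 hDr (by linarith)
  · have hjS : j ∈ S := Finset.mem_filter.2 ⟨Finset.mem_univ _, hj⟩
    have := hy2 j hjS
    have h0 := abs_nonneg (y j)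
    linarith

end main

/-- **Main theorem.** For every `n ≥ 1` and every tuple `x` of `n` integers there is a tuple `y` of `n`
integers with `|y i| ≤ 2 ^ (n - 1)` which satisfies every equation of the form `z i = 1` or
`z i + z j = z k` satisfied by `x`. -/
theorem result (n : ℕ) (_hn : 1 ≤ n) (x : Fin n → ℤ) :
    ∃ y : Fin n → ℤ, (∀ i, x i = 1 → y i = 1) ∧ (∀ i j k, x k = x i + x j → y k = y i + y j) ∧
      ∀ i, |y i| ≤ 2 ^ (n - 1) := by
  classical
  by_cases hx : ∀ i, x i ≠ 1
  · exact ⟨0, fun i hi => absurd hi (hx i), by simp, fun i => by simp⟩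
  push Not at hx
  obtain ⟨i₀, hi₀⟩ := hx
  -- the equations
  let M := {p : Fin n × Fin n × Fin n // x p.2.2 = x p.1 + x p.2.1}
  let κ : Fin n → Fin n := fun i => if x i = 1 then i₀ else i
  have hκ : ∀ i, x (κ i) = x i := by
    intro i
    simp only [κ]
    split_ifs with h
    · rw [h, hi₀]
    · rfl
  let J := {i : Fin n // i ≠ i₀}
  let R : M → Fin n → ℤ := fun p c => (if κ p.1.1 = c then (1 : ℤ) else 0) +
    (if κ p.1.2.1 = c then 1 else 0) - (if κ p.1.2.2 = c then 1 else 0)
  have hR : ∀ (p : M) (z : Fin n → ℤ), ∑ c, R p c * z c = z (κ p.1.1) + z (κ p.1.2.1) - z (κ p.1.2.2) := by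
    intro p z
    simp [R, sub_mul, add_mul, Finset.sum_add_distrib, Finset.sum_sub_distrib]
  have hmin : ∀ (r : ℕ) (f : Fin r → M) (g : Fin r → Fin n),
      |(Matrix.of fun i j => R (f i) (g j)).det| ≤ 2 ^ r := by
    intro r f g
    by_cases hg : Function.Injective g
    · exact abs_det_le (fun i => κ (f i).1.1) (fun i => κ (f i).1.2.1) (fun i => κ (f i).1.2.2) g hg
    · simp only [Function.Injective, not_forall] at hg
      obtain ⟨i, j, hij, hne⟩ := hg
      rw [Matrix.det_zero_of_column_eq hne (fun k => by simp [hij])]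
      simp
  have hsplit : ∀ (p : M) (z : Fin n → ℤ), ∑ c, R p c * z c = R p i₀ * z i₀ + ∑ c : J, R p c * z c := by
    intro p z
    rw [← Finset.add_sum_erase Finset.univ _ (Finset.mem_univ i₀)]
    congr 1
    symm
    refine Finset.sum_subtype (Finset.univ.erase i₀) (fun c => ?_) (fun c => R p c * z c) |>.symm
    simp
  have hcardJ : Fintype.card J = n - 1 := by
    simp [J, Fintype.card_subtype_compl]
  obtain ⟨y, hy1, hy2⟩ := exists_small_solution (Matrix.of fun (p : M) (c : J) => R p c)
    (fun p => - R p i₀) (fun r f g => hmin r f (fun i => (g i : Fin n)))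
    (by
      intro r f g c
      have h1 : ((Matrix.of fun (p : M) (c : J) => R p c).submatrix f g).updateCol c
          ((fun p => - R p i₀) ∘ f) = ((Matrix.of fun i j => R (f i)
            (Function.update (fun i => (g i : Fin n)) c i₀ j))).updateCol c
            ((-1 : ℤ) • fun i => R (f i) i₀) := by
        ext p q
        by_cases hq : q = c
        · subst hq; simp
        · simp [Matrix.updateCol_ne hq, Function.update_of_ne hq]
      rw [h1, Matrix.det_updateCol_smul, abs_mul, abs_neg, abs_one, one_mul]
      refine le_trans (le_of_eq ?_) (hmin r f (Function.update (fun i => (g i : Fin n)) c i₀))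
      congr 2
      ext p q
      by_cases hq : q = c
      · subst hq; simp
      · simp [Matrix.updateCol_ne hq])
    (fun c => x c) (by
      ext p
      have h1 := hR p x
      rw [hsplit, hi₀, hκ, hκ, hκ] at h1
      simp only [Matrix.mulVec, dotProduct, Matrix.of_apply]
      have := p.2
      linarith)
  -- extend `y`
  let Y : Fin n → ℤ := fun c => if h : c = i₀ then 1 else y ⟨c, h⟩
  have hY0 : Y i₀ = 1 := by simp [Y]
  have hYJ : ∀ c : J, Y c = y c := by
    intro c
    simp only [Y]
    rw [dif_neg c.2]
  have hY : ∀ p : M, Y (κ p.1.1) + Y (κ p.1.2.1) - Y (κ p.1.2.2) = 0 := by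
    intro p
    rw [← hR p Y, hsplit, hY0]
    have h1 := congrFun hy1 p
    simp only [Matrix.mulVec, dotProduct, Matrix.of_apply] at h1
    simp only [hYJ]
    linarith
  refine ⟨fun i => Y (κ i), fun i hi => ?_, fun i j k h => ?_, fun i => ?_⟩
  · simp [κ, hi, hY0]
  · have := hY ⟨(i, j, k), h⟩
    simp only at this ⊢
    linarith
  · by_cases h : κ i = i₀
    · simp only [h, hY0, abs_one]
      exact one_le_pow₀ (by norm_num)
    · have := hy2 ⟨κ i, h⟩
      rw [hcardJ] at this
      rw [← hYJ] at this
      exact this

end Pool.Agent.Results.MP_80f852_al.SmallSolutions
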